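import Pool.Agent.W270.CV.Star

/-!
# Starshapedness from clear visibility of the locally nonconvex points, in every dimension

Idea of the proof. For a locally nonconvex point `q` let `A q` be the set of the points of `E` from
which `q` is clearly visible. By compactness one radius serves all tuples of locally nonconvex
points, so Helly's theorem gives a point `p` in all the closed convex hulls of the `A q` (taken with
that radius). Near `q` small moves from points of `E` towards `p` stay in `E`, elsewhere `E` is
locally convex. Hence for a chain of `N` segments in `E` with vertices `z i`, of least energy among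
the chains with the same end points, the numbers `u i = ‖z i - p‖²` satisfy
`u (i+1) - 2 u i + u (i-1) ≥ ‖z (i+1) - z i‖² + ‖z i - z (i-1)‖²`. Summing this and letting `N` grow
shows first that `p` is in `E`, and then that `p` sees every point of `E`.
-/

namespace Pool.Agent.Results.MP_ad2f8c_co.ClearVisibility

variable {d : ℕ}

/-- `y` sees `x` in `E`: the segment from `y` to `x` is contained in `E` -/
def Sees (E : Set (EuclideanSpace ℝ (Fin d))) (y x : EuclideanSpace ℝ (Fin d)) : Prop :=
  segment ℝ y x ⊆ E

/-- some point of `E` sees every point of `E` -/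
def Starshaped (E : Set (EuclideanSpace ℝ (Fin d))) : Prop :=
  ∃ y ∈ E, ∀ x ∈ E, Sees E y x

/-- `x` is a locally nonconvex point of `E`: a boundary point such that no ball around `x` meets `E`
in a convex set -/
def LocallyNonconvex (E : Set (EuclideanSpace ℝ (Fin d))) (x : EuclideanSpace ℝ (Fin d)) : Prop :=
  x ∈ frontier E ∧ ∀ r : ℝ, 0 < r → ¬ Convex ℝ (Metric.ball x r ∩ E)

/-- `x` is clearly visible from `y`: for some `r > 0`, `y` sees every point of `E` in the ball of
radius `r` around `x` -/
def ClearlyVisible (E : Set (EuclideanSpace ℝ (Fin d))) (x y : EuclideanSpace ℝ (Fin d)) : Prop :=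
  ∃ r : ℝ, 0 < r ∧ ∀ z ∈ Metric.ball x r ∩ E, Sees E y z

/-- property `C_n`: any `n` locally nonconvex points (not necessarily distinct) are all clearly
visible from one point of `E` -/
def PropertyC (n : ℕ) (E : Set (EuclideanSpace ℝ (Fin d))) : Prop :=
  ∀ x : Fin n → EuclideanSpace ℝ (Fin d), (∀ i, LocallyNonconvex E (x i)) →
    ∃ y ∈ E, ∀ i, ClearlyVisible E (x i) y

/-- In every dimension `d`, a compact connected set with property `C_(d+1)` is starshaped. -/
theorem result (d : ℕ) (E : Set (EuclideanSpace ℝ (Fin d))) (hE : IsCompact E)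
    (hconn : IsConnected E) (hC : PropertyC (d + 1) E) : Starshaped E := by
  have h : Pool.Agent.W270.CV.CP (Module.finrank ℝ (EuclideanSpace ℝ (Fin d)) + 1) E := by
    rw [finrank_euclideanSpace_fin]
    intro x hx
    obtain ⟨y, hy, h1⟩ := hC x (fun i => by
      obtain ⟨hxE, hxc⟩ := hx i
      refine ⟨⟨subset_closure hxE, fun hint => ?_⟩, hxc⟩
      obtain ⟨r, hr, hb⟩ := Metric.mem_nhds_iff.mp (mem_interior_iff_mem_nhds.mp hint)
      refine hxc r hr ?_
      rw [Set.inter_eq_left.mpr hb]
      exact convex_ball _ _)
    refine ⟨y, hy, fun i => ?_⟩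
    obtain ⟨r, hr, h2⟩ := h1 i
    exact ⟨r, hr, hy, h2⟩
  exact Pool.Agent.W270.CV.star_main hE hconn h

end Pool.Agent.Results.MP_ad2f8c_co.ClearVisibility
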